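import Pool.Agent.H913Z.Mix.Link

/-! Clusters of the mixed model and of its drawing in the doubled lattice. -/

namespace Pool.Agent.H913Z.Mix
open Finset Pool.Agent.H913Z.Perc

variable {d : ℕ}

theorem step_draw {ξ : Cell d → Bool} {x : Fin d → ℤ} {i : Fin d} (h1 : ξ (.inl x) = true)
    (h2 : ξ (.inl (x + Pi.single i 1)) = true) (h3 : ξ (.inr (x, i)) = true) :
    R (gd d) (draw ξ) (pos (.inl x)) (pos (.inl (x + Pi.single i 1))) := by
  have a1 : (gd d).Adj (pos (.inl x)) (pos (.inr (x, i))) :=
    ⟨adj_of_step i (fun j hj => by simp [pos, hj]) (by simp [pos]),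
      by rw [oc_inl]; norm_num, by rw [oc_inr]⟩
  have a2 : (gd d).Adj (pos (.inr (x, i))) (pos (.inl (x + Pi.single i 1))) :=
    ⟨adj_of_step i (fun j hj => by simp [pos, hj])
      (by left; simp only [pos, if_true, Pi.add_apply, Pi.single_eq_same]; ring),
      by rw [oc_inr], by rw [oc_inl]; norm_num⟩
  have m1 : pos (.inl x) ∈ draw ξ := ⟨_, h1, rfl⟩
  have m2 : pos (.inl (x + Pi.single i 1)) ∈ draw ξ := ⟨_, h2, rfl⟩
  have m3 : pos (.inr (x, i)) ∈ draw ξ := ⟨_, h3, rfl⟩
  exact ((R.refl _ _).tail a1 m1 m3).tail a2 m3 m2

theorem infinite_iff (ξ : Cell d → Bool) (v : Fin d → ℤ) :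
    {y | ξ (.inl v) = true ∧ Relation.ReflTransGen (fun x y : Fin d → ℤ =>
      ξ (.inl x) = true ∧ ξ (.inl y) = true ∧
        ∃ i, (y = x + Pi.single i 1 ∧ ξ (.inr (x, i)) = true) ∨
          (x = y + Pi.single i 1 ∧ ξ (.inr (y, i)) = true)) v y}.Infinite ↔
    (O (gd d) {pos (.inl v)} (draw ξ)).Infinite := by
  set C := {y | ξ (.inl v) = true ∧ Relation.ReflTransGen (fun x y : Fin d → ℤ =>
      ξ (.inl x) = true ∧ ξ (.inl y) = true ∧
        ∃ i, (y = x + Pi.single i 1 ∧ ξ (.inr (x, i)) = true) ∨
          (x = y + Pi.single i 1 ∧ ξ (.inr (y, i)) = true)) v y} with hC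
  have hopen : ∀ y ∈ C, ξ (.inl y) = true := by
    rintro y ⟨h1, h2⟩
    induction h2 with
    | refl => exact h1
    | tail _ hs _ => exact hs.2.1
  constructor
  · intro h
    refine (h.image (f := fun y => pos (.inl y))
      (fun a _ b _ e => Sum.inl_injective (pos_inj e))).mono ?_
    rintro _ ⟨y, hy, rfl⟩
    refine ⟨⟨_, hopen y hy, rfl⟩, Rs_singleton.2 ?_⟩
    obtain ⟨-, h2⟩ := hy
    induction h2 with
    | refl => exact R.refl _ _
    | tail _ hs ih =>
      obtain ⟨s1, s2, i, ⟨e, s3⟩ | ⟨e, s3⟩⟩ := hs
      · subst e; exact ih.trans (step_draw s1 s2 s3)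
      · subst e; exact ih.trans (step_draw s2 s1 s3).symm
  · intro h hf
    apply h
    have key : ∀ z ∈ O (gd d) {pos (.inl v)} (draw ξ), (∃ y ∈ C, z = pos (.inl y)) ∨
        ∃ x i, z = pos (.inr (x, i)) ∧ ξ (.inr (x, i)) = true ∧
          (x ∈ C ∨ x + Pi.single i 1 ∈ C) := by
      rintro z ⟨hz, h2'⟩
      have h2 := Rs_singleton.1 h2'
      clear h2'
      induction h2 with
      | refl =>
        obtain ⟨c, hc, e⟩ := hz
        rw [pos_inj e] at hc
        exact Or.inl ⟨v, ⟨hc, Relation.ReflTransGen.refl⟩, rfl⟩
      | tail _ hs ih =>
        obtain ⟨c, hc, rfl⟩ := hz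
        obtain ⟨i, h1, h2⟩ := adj_cases hs.1.1
        rcases ih hs.2.1 with ⟨y, hy, rfl⟩ | ⟨x, k, rfl, hx, hx'⟩
        · rcases c with x | ⟨x, k⟩
          · simp only [pos] at h2; omega
          · have hk : k = i := by
              by_contra hne
              have := h1 k hne
              simp only [pos, if_true] at this
              omega
            subst hk
            simp only [pos, if_true] at h2
            refine Or.inr ⟨x, k, rfl, hc, ?_⟩
            have h3 : ∀ j, j ≠ k → x j = y j := fun j hj => by
              have := h1 j hj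
              simp only [pos, hj, if_false] at this
              omega
            rcases h2 with e | e
            · left
              convert hy using 1
              ext j
              by_cases hj : j = k
              · subst hj; omega
              · exact h3 j hj
            · right
              convert hy using 1
              ext j
              by_cases hj : j = k
              · subst hj; simp only [Pi.add_apply, Pi.single_eq_same]; omega
              · simp [hj, h3 j hj]
        · rcases c with y | ⟨y, k'⟩
          · have hk : k = i := by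
              by_contra hne
              have := h1 k hne
              simp only [pos, if_true] at this
              omega
            subst hk
            simp only [pos, if_true] at h2
            refine Or.inl ⟨y, ?_, rfl⟩
            have h3 : ∀ j, j ≠ k → y j = x j := fun j hj => by
              have := h1 j hj
              simp only [pos, hj, if_false] at this
              omega
            rcases h2 with e | e
            · have e' : y = x + Pi.single k 1 := by
                ext j
                by_cases hj : j = k
                · subst hj; simp only [Pi.add_apply, Pi.single_eq_same]; omega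
                · simp [hj, h3 j hj]
              rcases hx' with m | m
              · exact ⟨m.1, m.2.tail ⟨hopen x m, hc, k, Or.inl ⟨e', hx⟩⟩⟩
              · exact e' ▸ m
            · have e' : y = x := by
                ext j
                by_cases hj : j = k
                · subst hj; omega
                · exact h3 j hj
              subst e'
              rcases hx' with m | m
              · exact m
              · exact ⟨m.1, m.2.tail ⟨hopen _ m, hc, k, Or.inr ⟨rfl, hx⟩⟩⟩
          · exfalso
            have o := oc_step i h1
            rw [oc_inr, oc_inr] at o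
            omega
    refine ((hf.image fun y => pos (.inl y)).union (Set.finite_iUnion fun i : Fin d =>
      (hf.image fun y => pos (.inr (y, i))).union
        (hf.image fun y => pos (.inr (y - Pi.single i 1, i))))).subset fun z hz => ?_
    rcases key z hz with ⟨y, hy, e⟩ | ⟨x, i, e, -, m | m⟩
    · exact Or.inl ⟨y, hy, e.symm⟩
    · exact Or.inr (Set.mem_iUnion.2 ⟨i, Or.inl ⟨x, m, e.symm⟩⟩)
    · exact Or.inr (Set.mem_iUnion.2 ⟨i, Or.inr ⟨_, m, by simp only [e, add_sub_cancel_right]⟩⟩)

end Pool.Agent.H913Z.Mix
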