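import Pool.Agent.H913Z.Perc.Target

/-! The target lemma with inhomogeneous weights. -/

namespace Pool.Agent.H913Z.Mix
open Finset Pool.Agent.H913Z.Perc

variable {V : Type*} [DecidableEq V] {G : SimpleGraph V} {U : Finset V} {q : V → ℝ}

variable (G) in
/-- `z` is an inner boundary site of `B` -/
def Bdry (B : Finset V) (z : V) : Prop := z ∈ B ∧ ∃ y, y ∉ B ∧ G.Adj y z

omit [DecidableEq V] in
theorem bdry_of_KK {o : V} {B : Finset V} {ω : Set V} {z : V} (h : z ∈ KK G o B ω) :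
    Bdry G B z := by
  obtain ⟨hz, y, hy, a⟩ := mem_KK.1 h
  exact ⟨hz, y, hy.1.2, a⟩

theorem die2 {o : V} {B B' : Finset V} (hq : Ok q) (ho : o ∉ B) (hBU : B ⊆ U) {p : ℝ}
    (hp1 : p ≤ 1) (hp0 : 0 ≤ p)
    (hp : ∀ v, Bdry G B v → q v ≤ p) (hB' : ∀ z ∈ B, ∀ y, G.Adj y z → y ∈ B') (N : ℕ) :
    Ex U q (fun ω => ind ((KK G o B ω).Nonempty ∧ (KK G o B ω).card ≤ N)) * (1 - p) ^ N ≤
      Ex U q (fun ω => ind ((∀ b ∈ B, b ∉ O G {o} ω) ∧ ∃ b ∈ B', b ∈ O G {o} ω)) := by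
  rw [splice_const U q (↑B)ᶜ (fun ω => ind ((∀ b ∈ B, b ∉ O G {o} ω) ∧ _)), ← Ex_mul_right]
  refine Ex_mono U hq fun ω => ?_
  by_cases h : (KK G o B ω).Nonempty ∧ (KK G o B ω).card ≤ N
  · rw [ind_pos h, one_mul]
    have hK : KK G o B ω ⊆ B := fun z hz => (mem_KK.1 hz).1
    have h1 := Ex_all_closed (hK.trans hBU) q
    have h2 : ∏ v ∈ KK G o B ω, (1 - p) ≤ ∏ v ∈ KK G o B ω, (1 - q v) :=
      prod_le_prod (fun _ _ => by linarith) (fun v hv => by linarith [hp v (bdry_of_KK hv)])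
    rw [prod_const] at h2
    refine (pow_le_pow_of_le_one (by linarith) (by linarith) h.2).trans
      (h2.trans (h1.symm.le.trans ?_))
    refine Ex_mono U hq fun ω' => ind_mono fun hc => ⟨fun b hb hO => ?_, ?_⟩
    · obtain ⟨y, hy, hy'⟩ := exists_KK ho hb hO
      rw [KK_sp] at hy
      rcases hy' with e | e
      · exact e.2 (hK hy)
      · exact hc y hy e.1
    · obtain ⟨z, hz⟩ := h.1
      obtain ⟨hz, y, hy, a⟩ := mem_KK.1 hz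
      exact ⟨y, hB' z hz y a, O_mono (fun v hv => Or.inl hv) le_rfl hy⟩
  · rw [ind_neg h, zero_mul]
    exact Ex_nonneg U hq fun _ => ind_nonneg _

theorem good_level2 {o : V} (hq : Ok q) (B : ℕ → Finset V) (J : ℕ) (hm : Monotone B)
    (hB' : ∀ j, ∀ z ∈ B j, ∀ y, G.Adj y z → y ∈ B (j + 1))
    (ho : ∀ j < J, o ∉ B j) (hBU : ∀ j < J, B j ⊆ U) {p : ℝ} (hp1 : p < 1) (hp0 : 0 ≤ p)
    (hp : ∀ j < J, ∀ v, Bdry G (B j) v → q v ≤ p) (N : ℕ) {δ : ℝ}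
    (hJ : 1 ≤ δ * J * (1 - p) ^ N) :
    ∃ j < J, Ex U q (fun ω => ind ((KK G o (B j) ω).Nonempty ∧ (KK G o (B j) ω).card ≤ N)) ≤ δ := by
  have hpos : 0 < (1 - p) ^ N := pow_pos (by linarith) N
  have hsum : ∀ ω : Set V, ∀ n : ℕ, ∑ j ∈ range n,
      ind ((∀ b ∈ B j, b ∉ O G {o} ω) ∧ ∃ b ∈ B (j + 1), b ∈ O G {o} ω) ≤
        ind (∃ b ∈ B n, b ∈ O G {o} ω) := by
    intro ω n
    induction n with
    | zero => simpa using ind_nonneg _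
    | succ n ih =>
      rw [sum_range_succ]
      by_cases h : ∃ b ∈ B n, b ∈ O G {o} ω
      · obtain ⟨b, hb, hb'⟩ := h
        rw [ind_neg (P := (∀ b ∈ B n, b ∉ O G {o} ω) ∧ ∃ b ∈ B (n + 1), b ∈ O G {o} ω)
          (fun e => e.1 b hb hb'),
          ind_pos (P := ∃ b ∈ B (n + 1), _) ⟨b, hm (Nat.le_succ n) hb, hb'⟩]
        linarith [ind_le_one (∃ b ∈ B n, b ∈ O G {o} ω)]
      · rw [ind_neg h] at ih
        linarith [ind_mono (P := (∀ b ∈ B n, b ∉ O G {o} ω) ∧ ∃ b ∈ B (n + 1), b ∈ O G {o} ω)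
          (fun e => e.2)]
  have hJ0 : (range J).Nonempty := by
    rcases J with _ | J
    · norm_num at hJ
    · exact ⟨0, by simp⟩
  have h : ∑ j ∈ range J, Ex U q (fun ω => ind ((KK G o (B j) ω).Nonempty ∧
      (KK G o (B j) ω).card ≤ N)) * (1 - p) ^ N ≤ ∑ j ∈ range J, δ * (1 - p) ^ N := by
    refine (sum_le_sum fun j hj => die2 (B' := B (j + 1)) hq (ho j (mem_range.1 hj))
      (hBU j (mem_range.1 hj)) hp1.le hp0 (hp j (mem_range.1 hj)) (hB' j) N).trans ?_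
    rw [← Ex_sum]
    refine (Ex_le_const U hq fun ω => (hsum ω J).trans (ind_le_one _)).trans ?_
    rw [sum_const, card_range, nsmul_eq_mul]
    linarith
  obtain ⟨j, hj, h⟩ := exists_le_of_sum_le hJ0 h
  exact ⟨j, mem_range.1 hj, le_of_mul_le_mul_right h hpos⟩

theorem tgt_c2 {κ : Type*} [Fintype κ] (hq : Ok q) (o : V) (B : Finset V) (T : Set V)
    {δ δ' x : ℝ} (hδ : 0 < δ) (hBU : B ⊆ U) (seed : V → Finset V) (col : V → κ) (k : ℕ)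
    (hS : ∀ z, Bdry G B z → seed z ⊆ B) (hz : ∀ z, Bdry G B z → z ∈ seed z)
    (hx : ∀ z, Bdry G B z → ∏ v ∈ seed z, q v = x)
    (hc : ∀ z, Bdry G B z → ∀ ω : Set V, ↑(seed z) ⊆ ω → ∀ y ∈ seed z, R G ω z y)
    (hf : ∀ z, Bdry G B z → Ex U q (fun ω => ind (∀ t ∈ T, t ∉ O G ↑(seed z) ω)) ≤ δ')
    (hd : ∀ z, Bdry G B z → ∀ z', Bdry G B z' → z ≠ z' → col z = col z' →
      Disjoint (seed z) (seed z'))
    (H1 : (1 - x) ^ k ≤ δ) (H2 : k * x * δ' ≤ δ ^ 2) :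
    Ex U q (fun ω => ind (Fintype.card κ * k < (KK G o B ω).card ∧
      ∀ z ∈ KK G o B ω, ¬ (z ∈ ω ∧ z ∈ AA G U q B T δ ω))) ≤ 2 * δ := by
  classical
  rw [splice_const U q (↑B)ᶜ]
  refine Ex_le_const U hq fun ω => ?_
  simp only [KK_sp]
  by_cases h : Fintype.card κ * k < (KK G o B ω).card
  swap
  · exact Ex_le_const U hq fun ω' => by rw [ind_neg (fun e => h e.1)]; linarith
  obtain ⟨c, -, hc'⟩ := exists_lt_card_fiber_of_mul_lt_card_of_maps_to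
    (s := KK G o B ω) (t := univ) (f := col) (fun _ _ => mem_univ _) h
  obtain ⟨Z, hZ, hZc⟩ := exists_subset_card_eq hc'.le
  have hZK : ∀ z ∈ Z, z ∈ KK G o B ω := fun z hz => (mem_filter.1 (hZ hz)).1
  have hZB : ∀ z ∈ Z, Bdry G B z := fun z hz => bdry_of_KK (hZK z hz)
  have h1 := seeds_fail (U := U) (q := q) seed x Z (fun z hz => (hS z (hZB z hz)).trans hBU)
    (fun z hz => hx z (hZB z hz)) (fun z hz z' hz' hne => hd z (hZB z hz) z' (hZB z' hz') hne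
      ((mem_filter.1 (hZ hz)).2.trans (mem_filter.1 (hZ hz')).2.symm))
  have h2 : δ * ∑ z ∈ Z, Ex U q (fun ω => ind (↑(seed z) ⊆ ω ∧ z ∉ AA G U q B T δ ω)) ≤
      k * x * δ' := by
    rw [mul_sum]
    refine (sum_le_sum fun z hz => tgt_b hq B T (hZB z hz).1 (seed z) (hS z (hZB z hz)) hBU
      (hc z (hZB z hz)) (hf z (hZB z hz))).trans ?_
    rw [sum_congr rfl (fun z hz => by rw [hx z (hZB z hz)]), sum_const, hZc, nsmul_eq_mul]
    exact le_of_eq (by ring)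
  have h3 : ∑ z ∈ Z, Ex U q (fun ω => ind (↑(seed z) ⊆ ω ∧ z ∉ AA G U q B T δ ω)) ≤ δ := by
    refine le_of_mul_le_mul_left (h2.trans (H2.trans (le_of_eq (by ring)))) hδ
  rw [hZc] at h1
  refine le_trans (Ex_mono U hq (G := fun ω' => ind (∀ z ∈ Z, ¬ (↑(seed z) : Set V) ⊆ ω') +
    ∑ z ∈ Z, ind (↑(seed z) ⊆ ω' ∧ z ∉ AA G U q B T δ ω')) fun ω' => ?_) ?_
  · have hs : 0 ≤ ∑ z ∈ Z, ind (↑(seed z) ⊆ ω' ∧ z ∉ AA G U q B T δ ω') :=
      sum_nonneg fun _ _ => ind_nonneg _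
    by_cases h0 : ∀ z ∈ Z, ¬ (↑(seed z) : Set V) ⊆ ω'
    · rw [ind_pos h0]
      linarith [ind_le_one (Fintype.card κ * k < (KK G o B ω).card ∧ ∀ z ∈ KK G o B ω,
        ¬ (z ∈ sp (↑B)ᶜ ω ω' ∧ z ∈ AA G U q B T δ (sp (↑B)ᶜ ω ω')))]
    · rw [ind_neg h0, zero_add]
      push Not at h0
      obtain ⟨z, hzZ, hz'⟩ := h0
      refine le_trans (ind_mono fun e => ?_) (single_le_sum
        (f := fun z => ind (↑(seed z) ⊆ ω' ∧ z ∉ AA G U q B T δ ω'))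
        (fun _ _ => ind_nonneg _) hzZ)
      refine ⟨hz', fun hA => e.2 z (hZK z hzZ) ⟨Or.inr ⟨hz' (hz z (hZB z hzZ)), ?_⟩, ?_⟩⟩
      · exact fun e => e (hZB z hzZ).1
      · rwa [AA_congr B T δ (ξ' := ω')
          (fun v hv => by simp only [mem_sp, Set.mem_compl_iff, mem_coe]; tauto)]
  · rw [Ex_add, Ex_sum, h1]
    linarith

/-- The target lemma. -/
theorem target2 {κ : Type*} [Fintype κ] (hq : Ok q) (o : V) (T : Set V) (B : ℕ → Finset V)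
    (J : ℕ) (hm : Monotone B) (hB' : ∀ j, ∀ z ∈ B j, ∀ y, G.Adj y z → y ∈ B (j + 1))
    (ho : ∀ j < J, o ∉ B j) (hBU : ∀ j < J, B j ⊆ U) {p : ℝ} (hp1 : p < 1) (hp0 : 0 ≤ p)
    (hp : ∀ j < J, ∀ v, Bdry G (B j) v → q v ≤ p) {δ δ' x : ℝ} (hδ : 0 < δ)
    (seed : ℕ → V → Finset V) (col : V → κ) (k : ℕ)
    (hS : ∀ j < J, ∀ z, Bdry G (B j) z → seed j z ⊆ B j)
    (hz : ∀ j < J, ∀ z, Bdry G (B j) z → z ∈ seed j z)
    (hx : ∀ j < J, ∀ z, Bdry G (B j) z → ∏ v ∈ seed j z, q v = x)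
    (hc : ∀ j < J, ∀ z, Bdry G (B j) z →
      ∀ ω : Set V, ↑(seed j z) ⊆ ω → ∀ y ∈ seed j z, R G ω z y)
    (hf : ∀ j < J, ∀ z, Bdry G (B j) z →
      Ex U q (fun ω => ind (∀ t ∈ T, t ∉ O G ↑(seed j z) ω)) ≤ δ')
    (hd : ∀ j < J, ∀ z, Bdry G (B j) z → ∀ z', Bdry G (B j) z' → z ≠ z' → col z = col z' →
      Disjoint (seed j z) (seed j z'))
    (H1 : (1 - x) ^ k ≤ δ) (H2 : k * x * δ' ≤ δ ^ 2)
    (H3 : 1 ≤ δ * J * (1 - p) ^ (Fintype.card κ * k)) :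
    Ex U q (fun ω => ind ((∃ b ∈ B 0, b ∈ O G {o} ω) ∧ ∀ t ∈ T, t ∉ O G {o} ω)) ≤ 4 * δ := by
  obtain ⟨j, hj, h1⟩ := good_level2 hq B J hm hB' ho hBU hp1 hp0 hp _ H3
  have h2 := tgt_a (G := G) (U := U) hq o (B j) T hδ.le
  have h3 := tgt_c2 hq o (B j) T hδ (hBU j hj) (seed j) col k (hS j hj) (hz j hj) (hx j hj)
    (hc j hj) (hf j hj) (hd j hj) H1 H2
  refine le_trans ?_ ((add_le_add (add_le_add h1 h2) h3).trans (le_of_eq (by ring)))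
  rw [← Ex_add, ← Ex_add]
  refine Ex_mono U hq fun ω => ?_
  by_cases h : (∃ b ∈ B 0, b ∈ O G {o} ω) ∧ ∀ t ∈ T, t ∉ O G {o} ω
  swap
  · rw [ind_neg h]
    exact add_nonneg (add_nonneg (ind_nonneg _) (ind_nonneg _)) (ind_nonneg _)
  rw [ind_pos h]
  obtain ⟨⟨b, hb, hb'⟩, hT⟩ := h
  obtain ⟨y, hy, -⟩ := exists_KK (ho j hj) (hm (Nat.zero_le j) hb) hb'
  have n1 := ind_nonneg ((KK G o (B j) ω).Nonempty ∧ (KK G o (B j) ω).card ≤ Fintype.card κ * k)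
  have n2 := ind_nonneg (Rs G ω ↑(AA G U q (B j) T δ ω) o ∧ ∀ t ∈ T, t ∉ O G {o} ω)
  have n3 := ind_nonneg (Fintype.card κ * k < (KK G o (B j) ω).card ∧
      ∀ z ∈ KK G o (B j) ω, ¬ (z ∈ ω ∧ z ∈ AA G U q (B j) T δ ω))
  by_cases c1 : (KK G o (B j) ω).card ≤ Fintype.card κ * k
  · rw [ind_pos (P := _ ∧ _ ≤ _) ⟨⟨y, hy⟩, c1⟩]; linarith
  · by_cases c2 : ∀ z ∈ KK G o (B j) ω, ¬ (z ∈ ω ∧ z ∈ AA G U q (B j) T δ ω)
    · rw [ind_pos (P := _ < _ ∧ _) ⟨not_le.1 c1, c2⟩]; linarith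
    · push Not at c2
      obtain ⟨z, hz1, hz2, hz3⟩ := c2
      obtain ⟨-, w, hw, a⟩ := mem_KK.1 hz1
      have : z ∈ O G {o} ω := O_step (O_mono Set.sdiff_subset le_rfl hw) a hz2
      rw [ind_pos (P := Rs G ω _ o ∧ _) ⟨⟨z, hz3, (Rs_singleton.1 this.2).symm⟩, hT⟩]
      linarith

theorem Ex_image {W : Type*} [DecidableEq W] (f : W → V) (hf : Function.Injective f)
    (U : Finset W) (q : V → ℝ) (F : Set V → ℝ) :
    Ex (U.image f) q F = Ex U (fun w => q (f w)) (fun ω => F (f '' ω)) := by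
  induction U using Finset.induction_on generalizing F with
  | empty => simp [Ex_empty]
  | insert v U hv ih =>
    have hv' : f v ∉ U.image f := by
      intro h
      obtain ⟨u, hu, he⟩ := mem_image.1 h
      exact hv (hf he ▸ hu)
    rw [image_insert, Ex_insert hv', Ex_insert hv, ih, ih]
    simp only [Set.image_insert_eq]

theorem Ex_drop {W U : Finset V} (h : W ⊆ U) (q : V → ℝ) (h0 : ∀ v ∈ U, v ∉ W → q v = 0)
    (F : Set V → ℝ) : Ex U q F = Ex W q F := by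
  have e : ∀ v ∈ U, q v = pin q (↑W)ᶜ ∅ v := by
    intro v hv
    by_cases hw : v ∈ W
    · exact (pin_of_not_mem q (S := (↑W)ᶜ) ∅ (fun e => e hw)).symm
    · simp [pin, hw, h0 v hv hw]
  rw [Ex_congr_q e, Ex_pin, ← Ex_local h]
  refine Ex_congr q fun ω _ => ?_
  congr 1
  ext v
  simp [mem_sp]

end Pool.Agent.H913Z.Mix
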