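import Pool.Agent.H913Z.Perc.Geo1
import Pool.Agent.H913Z.Mix.Target2

/-! The doubled lattice: even points are sites, points with one odd coordinate are bonds. -/

namespace Pool.Agent.H913Z.Mix
open Finset Pool.Agent.H913Z.Perc

variable {d : ℕ}

/-- number of odd coordinates -/
def oc (x : Fin d → ℤ) : ℤ := ∑ i, x i % 2

/-- the incidence graph of sites and bonds, drawn in the doubled lattice -/
def gd (d : ℕ) : SimpleGraph (Fin d → ℤ) where
  Adj x y := (zd d).Adj x y ∧ oc x ≤ 1 ∧ oc y ≤ 1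
  symm := ⟨fun _ _ h => ⟨h.1.symm, h.2.2, h.2.1⟩⟩
  loopless := ⟨fun _ h => h.1.ne rfl⟩

/-- the weights -/
noncomputable def qq (s b : ℝ) (x : Fin d → ℤ) : ℝ :=
  if oc x = 0 then s else if oc x = 1 then b else 0

theorem qq_ok {s b : ℝ} (s0 : 0 ≤ s) (s1 : s ≤ 1) (b0 : 0 ≤ b) (b1 : b ≤ 1) :
    Ok (qq (d := d) s b) := by
  intro v
  unfold qq
  split_ifs
  · exact ⟨s0, s1⟩
  · exact ⟨b0, b1⟩
  · norm_num

theorem oc_ge (x : Fin d → ℤ) (i : Fin d) : x i % 2 ≤ oc x :=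
  single_le_sum (f := fun i => x i % 2) (fun i _ => by omega) (mem_univ i)

theorem oc_nonneg (x : Fin d → ℤ) : 0 ≤ oc x := sum_nonneg fun i _ => by omega

theorem oc_zero {x : Fin d → ℤ} (h : ∀ i, x i % 2 = 0) : oc x = 0 := sum_eq_zero fun i _ => h i

theorem oc_step {x y : Fin d → ℤ} (i : Fin d) (h : ∀ j, j ≠ i → x j = y j) :
    oc x - x i % 2 = oc y - y i % 2 := by
  unfold oc
  rw [← add_sum_erase univ _ (mem_univ i), ← add_sum_erase univ (fun j => y j % 2) (mem_univ i),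
    sum_congr rfl (fun j hj => by rw [h j (ne_of_mem_erase hj)])]
  ring

theorem oc_two {x : Fin d → ℤ} (h : oc x ≤ 1) {i j : Fin d} (hij : j ≠ i) (hi : x i % 2 = 1) :
    x j % 2 = 0 := by
  have h1 := oc_step (x := x) (y := Function.update x i 0) i
    (fun j hj => (Function.update_of_ne hj _ _).symm)
  have h2 := oc_ge (Function.update x i 0) j
  rw [Function.update_of_ne hij] at h2
  rw [Function.update_self] at h1
  omega

theorem adj_cases {x y : Fin d → ℤ} (h : (zd d).Adj x y) :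
    ∃ i, (∀ j, j ≠ i → x j = y j) ∧ (y i = x i + 1 ∨ x i = y i + 1) := by
  have hs := zd_adj.1 h
  obtain ⟨i, -, hi⟩ := exists_ne_zero_of_sum_ne_zero (s := univ)
    (f := fun i => (x i - y i) ^ 2) (by rw [hs]; norm_num)
  have hi' : x i - y i ≠ 0 := fun e => hi (by simp [e])
  have hc := adj_coord h i
  refine ⟨i, fun j hj => ?_, by omega⟩
  rw [← add_sum_erase univ _ (mem_univ i)] at hs
  have h1 : (x i - y i) ^ 2 = 1 := by
    have : x i - y i = 1 ∨ x i - y i = -1 := by omega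
    rcases this with e | e <;> rw [e] <;> norm_num
  have h2 := single_le_sum (f := fun i => (x i - y i) ^ 2) (s := univ.erase i)
    (fun i _ => sq_nonneg _) (mem_erase.2 ⟨hj, mem_univ j⟩)
  have h3 : (x j - y j) ^ 2 = 0 := le_antisymm (by linarith) (sq_nonneg _)
  have := pow_eq_zero_iff (two_ne_zero) |>.1 h3
  omega

/-- sites and bonds in a cube -/
noncomputable def src (v : Fin d → ℤ) (m : ℕ) : Finset (Fin d → ℤ) :=
  (cube v m).filter fun x => oc x ≤ 1

theorem mem_src {v x : Fin d → ℤ} {m : ℕ} : x ∈ src v m ↔ x ∈ cube v m ∧ oc x ≤ 1 := mem_filter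

theorem src_zero : (↑(src (0 : Fin d → ℤ) 0) : Set (Fin d → ℤ)) = {0} := by
  ext x
  rw [mem_coe, mem_src, ← mem_coe, cube_zero]
  refine ⟨fun h => h.1, fun h => ⟨h, ?_⟩⟩
  rw [Set.mem_singleton_iff.1 h, oc_zero (fun _ => rfl)]
  norm_num

theorem src_conn {v : Fin d → ℤ} (hv : ∀ i, v i % 2 = 0) {m : ℕ} {ω : Set (Fin d → ℤ)}
    (hω : ↑(src v m) ⊆ ω) {y : Fin d → ℤ} (hy : y ∈ src v m) : R (gd d) ω v y := by
  induction hn : ∑ i, (y i - v i).natAbs generalizing y with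
  | zero =>
    have : y = v := by
      ext i
      have := (sum_eq_zero_iff.1 hn) i (mem_univ i)
      omega
    exact this ▸ R.refl _ _
  | succ n ih =>
    have hyo := (mem_src.1 hy).2
    obtain ⟨i, hi, hi'⟩ : ∃ i, y i ≠ v i ∧ (oc y = 0 ∨ y i % 2 = 1) := by
      by_cases h0 : oc y = 0
      · obtain ⟨i, -, hi⟩ := exists_ne_zero_of_sum_ne_zero (s := univ)
          (f := fun i => (y i - v i).natAbs) (by omega)
        exact ⟨i, by omega, Or.inl h0⟩
      · obtain ⟨i, -, hi⟩ := exists_ne_zero_of_sum_ne_zero (s := univ)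
          (f := fun i => y i % 2) h0
        have := hv i
        exact ⟨i, by omega, Or.inr (by omega)⟩
    have hyi := mem_cube.1 (mem_src.1 hy).1 i
    let y' := Function.update y i (if v i < y i then y i - 1 else y i + 1)
    have hne : ∀ j, j ≠ i → y' j = y j := fun j hj => Function.update_of_ne hj _ _
    have hy' : y' ∈ src v m := by
      refine mem_src.2 ⟨mem_cube.2 fun j => ?_, ?_⟩
      · by_cases hj : j = i
        · subst hj; simp only [y', Function.update_self]; split_ifs <;> omega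
        · rw [hne j hj]; exact mem_cube.1 (mem_src.1 hy).1 j
      · have h1 := oc_step i hne
        have h2 := oc_ge y i
        simp only [y', Function.update_self] at h1 ⊢
        split_ifs at h1 ⊢ <;> omega
    have hs : ∑ j, (y' j - v j).natAbs = n := by
      rw [← add_sum_erase univ _ (mem_univ i)] at hn ⊢
      have : ∑ j ∈ univ.erase i, (y' j - v j).natAbs = ∑ j ∈ univ.erase i, (y j - v j).natAbs :=
        sum_congr rfl fun j hj => by rw [hne j (ne_of_mem_erase hj)]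
      rw [this]
      simp only [y', Function.update_self]
      split_ifs <;> omega
    refine (ih hy' hs).tail ⟨adj_of_step i hne ?_, (mem_src.1 hy').2, hyo⟩ (hω hy') (hω hy)
    simp only [y', Function.update_self]
    split_ifs <;> omega

theorem symE_oc {v : Fin d → ℤ} (hv : ∀ i, v i % 2 = 0) (i0 i : Fin d) (σ : Fin d → Bool)
    (x : Fin d → ℤ) : oc (symE v i0 i σ x) = oc x := by
  unfold oc
  rw [← Equiv.sum_comp (Equiv.swap i0 i) (fun j => x j % 2)]
  refine sum_congr rfl fun j _ => ?_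
  have := hv j
  simp only [symE_apply]
  split_ifs <;> omega

theorem symE_gadj {v : Fin d → ℤ} (hv : ∀ i, v i % 2 = 0) (i0 i : Fin d) (σ : Fin d → Bool)
    (x y : Fin d → ℤ) : (gd d).Adj (symE v i0 i σ x) (symE v i0 i σ y) ↔ (gd d).Adj x y := by
  show (_ ∧ _ ∧ _) ↔ (_ ∧ _ ∧ _)
  rw [symE_adj, symE_oc hv, symE_oc hv]

theorem symE_qq {v : Fin d → ℤ} (hv : ∀ i, v i % 2 = 0) (i0 i : Fin d) (σ : Fin d → Bool)
    (s b : ℝ) : (fun x => qq s b (symE v i0 i σ x)) = qq s b := by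
  ext x; unfold qq; rw [symE_oc hv]

theorem symE_src {v : Fin d → ℤ} (hv : ∀ i, v i % 2 = 0) (i0 i : Fin d) (σ : Fin d → Bool)
    (x : Fin d → ℤ) (r : ℕ) : symE v i0 i σ x ∈ src v r ↔ x ∈ src 0 r := by
  rw [mem_src, mem_src, symE_cube, symE_oc hv]

theorem cube_image (v : Fin d → ℤ) (i0 i : Fin d) (σ : Fin d → Bool) (l : ℕ) :
    cube v l = (cube 0 l).image (symE v i0 i σ) := by
  ext x
  obtain ⟨y, rfl⟩ := (symE v i0 i σ).surjective x
  rw [symE_cube, (symE v i0 i σ).injective.mem_finset_image]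

theorem prod_src {v : Fin d → ℤ} (hv : ∀ i, v i % 2 = 0) (i0 : Fin d) (s b : ℝ) (m : ℕ) :
    ∏ x ∈ src v m, qq s b x = ∏ x ∈ src (0 : Fin d → ℤ) m, qq s b x := by
  symm
  refine prod_equiv (symE v i0 i0 fun _ => true) (fun x => (symE_src hv i0 i0 _ x m).symm)
    fun x _ => (congrFun (symE_qq hv i0 i0 _ s b) x).symm

/-- probability that the small cube is not joined to the face -/
noncomputable def fail (s b : ℝ) (m l : ℕ) (v : Fin d → ℤ) (i : Fin d) (σ : Fin d → Bool) : ℝ :=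
  Ex (cube v l) (qq s b) (fun ω => ind (∀ t ∈ face v l i σ, t ∉ O (gd d) ↑(src v m) ω))

theorem fail_symm (s b : ℝ) (m l : ℕ) {v : Fin d → ℤ} (hv : ∀ i, v i % 2 = 0) (i0 i : Fin d)
    (σ : Fin d → Bool) : fail s b m l v i σ = fail s b m l 0 i0 (fun _ => true) := by
  unfold fail
  rw [cube_image v i0 i σ, Ex_image _ (symE v i0 i σ).injective, symE_qq hv]
  refine Ex_congr _ fun ω _ => ind_congr ?_
  rw [← (symE v i0 i σ).forall_congr_right]
  refine forall_congr' fun x => ?_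
  rw [symE_face, O_equiv (symE v i0 i σ) (symE_gadj hv i0 i σ) (S := ↑(src (0 : Fin d → ℤ) m))
    (fun a => symE_src hv i0 i σ a m)]

/-- probability that the small cube is joined to the boundary of the large one -/
noncomputable def th (d : ℕ) (s b : ℝ) (m l : ℕ) : ℝ :=
  Ex (cube 0 l) (qq s b) (fun ω => ind (∃ t ∈ sph d l, t ∈ O (gd d) ↑(src (0 : Fin d → ℤ) m) ω))

theorem sqrt_trick {s b : ℝ} (hq : Ok (qq (d := d) s b)) (m l : ℕ) (i0 : Fin d) :
    fail s b m l 0 i0 (fun _ => true) ^ Fintype.card (Fin d × (Fin d → Bool)) ≤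
      1 - th d s b m l := by
  have h := harris_prod (cube 0 l) hq (univ : Finset (Fin d × (Fin d → Bool)))
    (fun a ω => ind (∀ t ∈ face 0 l a.1 a.2, t ∉ O (gd d) ↑(src (0 : Fin d → ℤ) m) ω))
    (fun a x y hxy => ind_mono fun h t ht e => h t ht (O_mono hxy le_rfl e))
    (fun _ _ => ind_nonneg _)
  have e : ∀ a : Fin d × (Fin d → Bool), Ex (cube 0 l) (qq s b)
      (fun ω => ind (∀ t ∈ face 0 l a.1 a.2, t ∉ O (gd d) ↑(src (0 : Fin d → ℤ) m) ω)) =
      fail s b m l 0 i0 (fun _ => true) := fun a => fail_symm s b m l (fun _ => rfl) i0 a.1 a.2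
  simp only [e, prod_const, card_univ] at h
  refine h.trans ?_
  unfold th
  rw [← Ex_const (cube (0 : Fin d → ℤ) l) (qq s b) 1, ← Ex_sub]
  refine Ex_mono _ hq fun ω => ?_
  by_cases hc : ∃ t ∈ sph d l, t ∈ O (gd d) ↑(src (0 : Fin d → ℤ) m) ω
  · obtain ⟨t, ht, ht'⟩ := hc
    obtain ⟨a, ha⟩ := sph_face ht
    rw [prod_eq_zero (mem_univ a) (ind_neg fun h => h t ha ht')]
    linarith [ind_le_one (∃ t ∈ sph d l, t ∈ O (gd d) ↑(src (0 : Fin d → ℤ) m) ω)]
  · rw [ind_neg hc, sub_zero]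
    exact prod_le_one (fun _ _ => ind_nonneg _) (fun _ _ => ind_le_one _)

theorem union_trick {s b : ℝ} (hq : Ok (qq (d := d) s b)) (m l : ℕ) (i0 : Fin d) :
    th d s b m l ≤
      Fintype.card (Fin d × (Fin d → Bool)) * (1 - fail s b m l 0 i0 (fun _ => true)) := by
  have e : ∀ a : Fin d × (Fin d → Bool), Ex (cube 0 l) (qq s b)
      (fun ω => 1 - ind (∀ t ∈ face 0 l a.1 a.2, t ∉ O (gd d) ↑(src (0 : Fin d → ℤ) m) ω)) =
      1 - fail s b m l 0 i0 (fun _ => true) := fun a => by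
    rw [Ex_sub, Ex_const, ← fail_symm s b m l (v := 0) (fun _ => rfl) i0 a.1 a.2]; rfl
  have h := Ex_sum (cube 0 l) (qq s b) (univ : Finset (Fin d × (Fin d → Bool)))
    (fun a ω => 1 - ind (∀ t ∈ face 0 l a.1 a.2, t ∉ O (gd d) ↑(src (0 : Fin d → ℤ) m) ω))
  simp only [e, sum_const, card_univ, nsmul_eq_mul] at h
  rw [← h]
  refine Ex_mono _ hq fun ω => ?_
  have hn : ∀ a : Fin d × (Fin d → Bool),
      0 ≤ 1 - ind (∀ t ∈ face 0 l a.1 a.2, t ∉ O (gd d) ↑(src (0 : Fin d → ℤ) m) ω) :=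
    fun a => sub_nonneg.2 (ind_le_one _)
  by_cases hc : ∃ t ∈ sph d l, t ∈ O (gd d) ↑(src (0 : Fin d → ℤ) m) ω
  · obtain ⟨t, ht, ht'⟩ := hc
    obtain ⟨a, ha⟩ := sph_face ht
    refine le_trans ?_ (single_le_sum (fun a _ => hn a) (mem_univ a))
    rw [ind_neg (P := ∀ t ∈ face 0 l a.1 a.2, t ∉ O (gd d) ↑(src (0 : Fin d → ℤ) m) ω)
      fun h => h t ha ht', sub_zero]
    exact ind_le_one _
  · rw [ind_neg hc]
    exact sum_nonneg fun a _ => hn a

theorem reach_sph {ω : Set (Fin d → ℤ)} {t : Fin d → ℤ} {k : ℕ} (ht : t ∈ O (gd d) {0} ω)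
    (hk : ∃ i, (k : ℤ) ≤ t i ∨ t i ≤ -k) :
    ∃ s ∈ sph d k, s ∈ O (gd d) {0} (ω ∩ ↑(cube (0 : Fin d → ℤ) k)) := by
  have h0 : (0 : Fin d → ℤ) ∈ (↑(cube (0 : Fin d → ℤ) k) : Set (Fin d → ℤ)) :=
    mem_cube.2 fun i => by simp
  rcases R_exit h0 (Rs_singleton.1 ht.2) with h | ⟨z, y, h1, h2, h3, h4, -, h6⟩
  · refine ⟨t, ⟨h.1, ?_⟩, ⟨ht.1, h.1⟩, Rs_singleton.2 h.2⟩
    obtain ⟨i, hi⟩ := hk
    have := mem_cube.1 h.1 i
    simp only [Pi.zero_apply] at this
    exact ⟨i, by omega⟩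
  · refine ⟨z, ⟨h3, ?_⟩, ⟨h2, h3⟩, Rs_singleton.2 h1⟩
    rw [mem_coe, mem_cube, not_forall] at h6
    obtain ⟨i, hi⟩ := h6
    have := mem_cube.1 h3 i
    have := adj_coord h4.1 i
    simp only [Pi.zero_apply] at *
    exact ⟨i, by omega⟩

theorem th_mul {s b : ℝ} (hq : Ok (qq (d := d) s b)) {k l m : ℕ} (h : k < l) (hm : k < m) :
    th d s b 0 l ≤ th d s b 0 k * th d s b m l := by
  have hsub : cube (0 : Fin d → ℤ) k ⊆ cube 0 l := fun x hx => mem_cube.2 fun i => by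
    have := mem_cube.1 hx i
    omega
  have hi := indep (cube 0 l) (qq s b) ↑(cube (0 : Fin d → ℤ) k)
    (fun ω => ind (∃ t ∈ sph d k, t ∈ O (gd d) ↑(src (0 : Fin d → ℤ) 0) ω))
    (fun ω => ind (∃ t ∈ sph d l, t ∈ O (gd d) ↑(src (0 : Fin d → ℤ) m) ω))
  rw [Ex_local hsub _ (fun ω => ind (∃ t ∈ sph d k, t ∈ O (gd d) ↑(src (0 : Fin d → ℤ) 0) ω))]
    at hi
  have h2 : Ex (cube 0 l) (qq s b) (fun ω => ind (∃ t ∈ sph d l,
      t ∈ O (gd d) ↑(src (0 : Fin d → ℤ) m) (ω \ ↑(cube (0 : Fin d → ℤ) k)))) ≤ th d s b m l :=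
    Ex_mono _ hq fun ω => ind_mono fun ⟨t, ht, ht'⟩ =>
      ⟨t, ht, O_mono Set.sdiff_subset le_rfl ht'⟩
  refine le_trans ?_ (mul_le_mul_of_nonneg_left h2 (Ex_nonneg _ hq fun _ => ind_nonneg _))
  refine le_trans (Ex_mono _ hq fun ω => ?_) hi.le
  rw [← ind_and, src_zero]
  refine ind_mono fun ⟨t, ht, ht'⟩ => ?_
  obtain ⟨i, hi⟩ := ht.2
  refine ⟨reach_sph ht' ⟨i, by omega⟩, t, ht, ?_⟩
  have hn : t ∈ (↑(cube (0 : Fin d → ℤ) k) : Set (Fin d → ℤ))ᶜ := fun e => by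
    have := mem_cube.1 e i
    simp only [Pi.zero_apply] at this
    omega
  rcases R_exit hn (Rs_singleton.1 ht'.2).symm with h | ⟨z, y, e1, e2, e3, e4, -, e6⟩
  · exact absurd (mem_cube.2 fun i => by simp) h.1
  · refine ⟨⟨ht'.1, hn⟩, z, mem_src.2 ⟨mem_cube.2 fun j => ?_, e4.2.1⟩, e1.symm⟩
    have := mem_cube.1 (not_not.1 e6) j
    have := adj_coord e4.1 j
    omega

end Pool.Agent.H913Z.Mix
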