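import Pool.Agent.H913Z.Perc.Geo3
import Pool.Agent.H913Z.Mix.Geo2

/-! The finite-volume criterion for the mixed model and its stability. -/

namespace Pool.Agent.H913Z.Mix
open Finset Filter Topology
open Pool.Agent.H913Z.Perc hiding hit Move clamp fail fail_symm corridor move_of th reach_sph
  th_of_sys perc_of_move perc_near_one th_nonneg exists_m perc_below th_mul sqrt_trick union_trick

variable {d : ℕ}

theorem th_of_sys {s b δ : ℝ} {K : ℕ} {U : Finset (Fin d → ℤ)} {Q : ℕ × ℕ → Set (Fin d → ℤ)}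
    {conn : ℕ × ℕ → Set (Fin d → ℤ) → Prop} (H : Sys U (qq s b) K δ Q conn)
    (hU : cube 0 K ⊆ U) (i0 : Fin d)
    (hc : ∀ x ω, conn x ω → ∃ t ∈ O (gd d) {0} ω, (x.1 : ℤ) ≤ t i0) :
    Ex U (qq s b) (fun ω => ind (conn (0, 0) (ω ∩ Q (0, 0)))) - 5 * δ ≤ th d s b 0 K := by
  refine (explore H).trans ?_
  unfold th
  rw [← Ex_local hU, src_zero]
  refine Ex_mono U H.ok fun ω => ind_mono ?_
  rintro ⟨x, hx, h⟩
  obtain ⟨t, ht, ht'⟩ := hc x ω h
  exact reach_sph ht ⟨i0, Or.inl (by omega)⟩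

theorem perc_of_move {s b η δ : ℝ} {r l : ℕ} (hq : Ok (qq (d := d) s b))
    (M : Move d (qq s b) η r l) (hl : (9 + d) * r < l) (r2 : r % 2 = 0) (l2 : l % 2 = 0)
    (hδ : 0 < δ) (hs : 288 * δ ≤ 1) (hη : (8 + d) * η ≤ δ ^ 2 / 4)
    {i0 i1 : Fin d} (h01 : i1 ≠ i0) (K : ℕ) :
    1 - fail s b 0 l 0 i0 (fun _ => true) - 5 * δ ≤ th d s b 0 K := by
  let cen : ℕ × ℕ → Fin d → ℤ := fun x => plane i0 i1 (3 * l + 8 * (l * x.1)) (8 * (l * x.2))
  let U : Finset (Fin d → ℤ) := cube 0 K ∪ (Lam K).biUnion fun x => blockQ (cen x) l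
  have hl0 : (1 : ℤ) ≤ l := by omega
  have hUQ : ∀ x ∈ Lam K, blockQ (cen x) l ⊆ U := fun x hx v hv =>
    mem_union_right _ (mem_biUnion.2 ⟨x, hx, hv⟩)
  have sep : ∀ a b : ℕ, a ≠ b → (l : ℤ) * a + l ≤ l * b ∨ (l : ℤ) * b + l ≤ l * a := by
    intro a b hab
    rcases lt_or_gt_of_ne hab with h | h
    · have : (a : ℤ) + 1 ≤ b := by omega
      left; nlinarith
    · have : (b : ℤ) + 1 ≤ a := by omega
      right; nlinarith
  have ev : ∀ x j, cen x j % 2 = 0 := by
    intro x j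
    simp only [cen, plane]
    split_ifs <;> omega
  have H : Sys U (qq s b) K δ (fun x => ↑(blockQ (cen x) l))
      (fun x => hit (cube (cen x) (2 * l))) := by
    refine ⟨hq, hδ, hs, fun x y hxy v hv hv' => ?_, fun x ω ω' h e => ?_,
      fun x hx y hy a q' hq' he => ?_⟩
    · have a0 := mem_blockQ.1 hv i0
      have a1 := mem_blockQ.1 hv i1
      have b0 := mem_blockQ.1 hv' i0
      have b1 := mem_blockQ.1 hv' i1
      simp only [cen, plane0, plane1 h01] at a0 a1 b0 b1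
      by_cases h : x.1 = y.1
      · have := sep x.2 y.2 (fun e => hxy (Prod.ext h e))
        omega
      · have := sep x.1 y.1 h
        omega
    · obtain ⟨u, hb, hb'⟩ := e
      exact ⟨u, hb, O_mono h le_rfl hb'⟩
    · have p1 : (0 : ℤ) ≤ l * x.1 := by positivity
      have p2 : (0 : ℤ) ≤ l * y.1 := by positivity
      have key : ∀ (i : Fin d) (D : ℤ), (D = l ∨ D = -l) → cen y i = cen x i + 8 * D →
          (∀ j, j ≠ i → cen y j = cen x j) → Ex U q' (fun ω => ind (hit (cube (cen x) (2 * l)) ω ∧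
            ¬ hit (cube (cen y) (2 * l)) ω)) ≤ δ ^ 2 / 4 := fun i D hD hi hj =>
        (corridor M hl r2 l2 hq' (cen x) (cen y) i i0 D hD hi hj
          (by simp only [cen, plane0]; omega) (by simp only [cen, plane0]; omega) (ev x) (ev y)
          (fun v hv => ⟨hv.elim (fun e => hUQ x hx e) (fun e => hUQ y hy e), he v hv⟩)).trans hη
      rcases a with ⟨e, e' | e'⟩ | ⟨e, e' | e'⟩
      · refine key i1 l (Or.inl rfl) ?_ fun j hj => ?_
        · simp only [cen, plane1 h01, ← e']; push_cast; ring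
        · simp only [cen, e]; exact plane_ne1 hj _ _ _
      · refine key i1 (-l) (Or.inr rfl) ?_ fun j hj => ?_
        · simp only [cen, plane1 h01, ← e']; push_cast; ring
        · simp only [cen, e]; exact plane_ne1 hj _ _ _
      · refine key i0 l (Or.inl rfl) ?_ fun j hj => ?_
        · simp only [cen, plane0, ← e']; push_cast; ring
        · simp only [cen, e]; exact plane_ne0 hj _ _ _
      · refine key i0 (-l) (Or.inr rfl) ?_ fun j hj => ?_
        · simp only [cen, plane0, ← e']; push_cast; ring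
        · simp only [cen, e]; exact plane_ne0 hj _ _ _
  have h := th_of_sys H subset_union_left i0 (fun x ω e => by
    obtain ⟨u, hb, hb'⟩ := e
    refine ⟨u, hb', ?_⟩
    have := mem_cube.1 hb i0
    simp only [cen, plane0] at this
    have : (x.1 : ℤ) ≤ l * x.1 := by nlinarith
    omega)
  refine le_trans (sub_le_sub_right ?_ _) h
  have h0 : ((0, 0) : ℕ × ℕ) ∈ Lam K :=
    mem_product.2 ⟨mem_range.2 (by positivity), mem_range.2 (by positivity)⟩
  have hc : ∀ j, (j = i0 ∧ cen (0, 0) j = 3 * l) ∨ (j ≠ i0 ∧ cen (0, 0) j = 0) := by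
    intro j
    by_cases hj : j = i0
    · subst hj; simp [cen, plane]
    · simp [cen, plane, hj]
  have hsub : cube 0 l ⊆ blockQ (cen (0, 0)) l := fun v hv => mem_blockQ.2 fun j => by
    have := mem_cube.1 hv j
    have := hc j
    simp only [Pi.zero_apply] at *
    omega
  unfold fail
  rw [← Ex_local (hsub.trans (hUQ _ h0)), ← Ex_const U (qq s b) 1, ← Ex_sub, src_zero]
  refine Ex_mono U H.ok fun ω => ?_
  rw [← ind_not]
  refine ind_mono fun e => ?_
  push Not at e
  obtain ⟨t, ht, ht'⟩ := e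
  refine ⟨t, mem_cube.2 fun j => ?_, O_mono (Set.inter_subset_inter_right _ hsub) le_rfl ht'⟩
  have h1 := ht.1 j
  have h2 := ht.2
  simp only [Pi.zero_apply, if_true] at h1 h2
  push_cast
  rcases hc j with ⟨rfl, e⟩ | ⟨-, e⟩ <;> omega

theorem oc_plane {i0 i1 : Fin d} (h01 : i1 ≠ i0) (a b : ℤ) :
    oc (plane i0 i1 a b) = a % 2 + b % 2 := by
  have h1 := oc_step (x := plane i0 i1 a b) (y := plane i0 i1 0 b) i0
    fun j hj => plane_ne0 hj _ _ _
  have h2 := oc_step (x := plane i0 i1 0 b) (y := plane i0 i1 0 0) i1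
    fun j hj => plane_ne1 hj _ _ _
  have h3 : oc (plane i0 i1 0 0) = 0 := oc_zero fun j => by simp [plane]
  simp only [plane0, plane1 h01] at h1 h2
  omega

theorem perc_near_one {i0 i1 : Fin d} (h01 : i1 ≠ i0) :
    ∃ b : ℝ, 0 ≤ b ∧ b < 1 ∧ ∃ c : ℝ, 0 < c ∧ ∀ K, c ≤ th d 1 b 0 K := by
  refine ⟨1 - (1 / 288) ^ 2 / 4, by norm_num, by norm_num, 1 / 2, by norm_num, fun K => ?_⟩
  let em : ℕ × ℕ → Fin d → ℤ := fun x => plane i0 i1 (2 * x.1) (2 * x.2)
  let U : Finset (Fin d → ℤ) := cube 0 (K + 2 * 3 ^ (K + 1))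
  have hU : ∀ a b : ℕ, a ≤ 2 * 3 ^ (K + 1) → b ≤ 2 * 3 ^ (K + 1) → plane i0 i1 a b ∈ U := by
    intro a b ha hb
    refine mem_cube.2 fun j => ?_
    simp only [plane, Pi.zero_apply]
    generalize 3 ^ (K + 1) = M at *
    split_ifs <;> omega
  have H : Sys U (qq 1 (1 - (1 / 288) ^ 2 / 4)) K (1 / 288)
      (fun x => {v | v i0 / 2 = x.1 ∧ v i1 / 2 = x.2}) (fun x ω => em x ∈ O (gd d) {0} ω) := by
    refine ⟨qq_ok (by norm_num) (by norm_num) (by norm_num) (by norm_num), by norm_num,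
      by norm_num, fun x y hxy v hv hv' => ?_, fun x ω ω' h e => O_mono h le_rfl e,
      fun x hx y hy a q' hq' he => ?_⟩
    · exact hxy (Prod.ext (by have := hv.1; have := hv'.1; omega)
        (by have := hv.2; have := hv'.2; omega))
    · let mid : Fin d → ℤ := plane i0 i1 (x.1 + y.1 : ℕ) (x.2 + y.2 : ℕ)
      have a' := a
      unfold madj at a'
      have o1 : oc (em x) = 0 := by simp only [em, oc_plane h01]; omega
      have o2 : oc (em y) = 0 := by simp only [em, oc_plane h01]; omega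
      have o3 : oc mid = 1 := by simp only [mid, oc_plane h01]; omega
      have ha : (gd d).Adj (em x) mid ∧ (gd d).Adj mid (em y) := by
        rcases a with ⟨e, e'⟩ | ⟨e, e'⟩
        · have e0 : ((x.1 + y.1 : ℕ) : ℤ) = 2 * y.1 := by omega
          refine ⟨⟨adj_of_step i1 (fun j hj => ?_) ?_, by omega, by omega⟩,
            ⟨adj_of_step i1 (fun j hj => ?_) ?_, by omega, by omega⟩⟩
          · simp only [em, mid, e0]; rw [e]; exact plane_ne1 hj _ _ _
          · simp only [em, mid, plane1 h01]; omega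
          · simp only [em, mid, e0]; exact plane_ne1 hj _ _ _
          · simp only [em, mid, plane1 h01]; omega
        · have e0 : ((x.2 + y.2 : ℕ) : ℤ) = 2 * y.2 := by omega
          refine ⟨⟨adj_of_step i0 (fun j hj => ?_) ?_, by omega, by omega⟩,
            ⟨adj_of_step i0 (fun j hj => ?_) ?_, by omega, by omega⟩⟩
          · simp only [em, mid, e0]; rw [e]; exact plane_ne0 hj _ _ _
          · simp only [em, mid, plane0]; omega
          · simp only [em, mid, e0]; exact plane_ne0 hj _ _ _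
          · simp only [em, mid, plane0]; omega
      have x1 := mem_range.1 (mem_product.1 hx).1
      have x2 := mem_range.1 (mem_product.1 hx).2
      have y1 := mem_range.1 (mem_product.1 hy).1
      have y2 := mem_range.1 (mem_product.1 hy).2
      have h1 := Ex_mem q' (U := U) (v := em y) (by
        have := hU (2 * y.1) (2 * y.2) (by omega) (by omega)
        push_cast at this
        exact this)
      have h1' := Ex_mem q' (U := U) (v := mid) (hU _ _ (by omega) (by omega))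
      rw [he _ (Or.inr ⟨by simp only [em, plane0]; omega, by simp only [em, plane1 h01]; omega⟩)]
        at h1
      rw [he _ (by
        simp only [mid, Set.mem_union, Set.mem_ofPred_eq, plane0, plane1 h01]
        omega)] at h1'
      simp only [qq, o2, o3, if_true, one_ne_zero, if_false] at h1 h1'
      have h2 := Ex_mono U hq' (F := fun ω => ind (em x ∈ O (gd d) {0} ω ∧
        ¬ em y ∈ O (gd d) {0} ω)) (G := fun ω => (1 - ind (em y ∈ ω)) + (1 - ind (mid ∈ ω)))
        fun ω => by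
          have n1 := ind_le_one (em y ∈ ω)
          have n2 := ind_le_one (mid ∈ ω)
          have n3 := ind_le_one (em x ∈ O (gd d) {0} ω ∧ ¬ em y ∈ O (gd d) {0} ω)
          by_cases c1 : em y ∈ ω
          · by_cases c2 : mid ∈ ω
            · rw [ind_neg fun e => e.2 (O_step (O_step e.1 ha.1 c2) ha.2 c1)]; linarith
            · rw [ind_neg c2]; linarith
          · rw [ind_neg c1]; linarith
      rw [Ex_add, Ex_sub, Ex_sub, Ex_const, h1, h1'] at h2
      linarith
  have h := th_of_sys H (fun v hv => mem_cube.2 fun j => by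
      have := mem_cube.1 hv j
      generalize 3 ^ (K + 1) = M at *
      omega) i0 (fun x ω e => ⟨em x, e, by simp only [em, plane0]; omega⟩)
  have e0 : em (0, 0) = 0 := by ext j; simp [em, plane]
  have h1 := Ex_mem (qq 1 (1 - (1 / 288) ^ 2 / 4)) (U := U) (v := 0)
    (mem_cube.2 fun i => by simp only [Pi.zero_apply]; omega)
  have h2 := Ex_mono U H.ok (F := fun ω => ind ((0 : Fin d → ℤ) ∈ ω))
    (G := fun ω => ind (em (0, 0) ∈ O (gd d) {0} (ω ∩
      {v | v i0 / 2 = ((0, 0) : ℕ × ℕ).1 ∧ v i1 / 2 = ((0, 0) : ℕ × ℕ).2}))) fun ω =>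
      ind_mono fun e => by rw [e0]; exact ⟨⟨e, by simp⟩, Rs_of_mem rfl⟩
  have e1 : qq 1 (1 - (1 / 288) ^ 2 / 4) (0 : Fin d → ℤ) = 1 := if_pos (oc_zero fun _ => rfl)
  rw [h1, e1] at h2
  linarith

theorem exists_m {s b c : ℝ} (hq : Ok (qq (d := d) s b)) (hc : 0 < c)
    (h : ∀ k, c ≤ th d s b 0 k) {ρ : ℝ} (hρ : 0 < ρ) :
    ∃ k, ∀ m l, k < m → k < l → 1 - th d s b m l ≤ ρ := by
  have hb : BddBelow (Set.range fun k => th d s b 0 k) := ⟨c, by rintro _ ⟨k, rfl⟩; exact h k⟩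
  set a := ⨅ k, th d s b 0 k with ha
  have hca : c ≤ a := le_ciInf h
  obtain ⟨k, hk⟩ := exists_lt_of_ciInf_lt (f := fun k => th d s b 0 k) (a := a * (1 + ρ))
    (by rw [← ha]; nlinarith)
  refine ⟨k, fun m l hm hl => ?_⟩
  have e1 := th_mul hq hl hm
  have e2 : a ≤ th d s b 0 l := ciInf_le hb l
  have e3 : 0 ≤ th d s b m l := Ex_nonneg _ hq fun _ => ind_nonneg _
  have e4 : a * 1 ≤ a * ((1 + ρ) * th d s b m l) := by nlinarith
  have e5 := le_of_mul_le_mul_left e4 (by linarith)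
  have e6 : th d s b m l ≤ 1 := Ex_le_const _ hq fun _ => ind_le_one _
  nlinarith

theorem qq_cont (s : ℝ) (v : Fin d → ℤ) : Continuous fun t => qq s t v := by
  unfold qq
  split_ifs
  · exact continuous_const
  · exact continuous_id
  · exact continuous_const

theorem perc_below {s b c : ℝ} (s0 : 0 < s) (s1 : s ≤ 1) (b0 : 0 < b) (b1 : b ≤ 1)
    (hsb : b < 1 ∨ s < 1) (hc : 0 < c) (h : ∀ k, c ≤ th d s b 0 k)
    {i0 i1 : Fin d} (h01 : i1 ≠ i0) :
    ∃ b' : ℝ, 0 ≤ b' ∧ b' < b ∧ ∃ c' : ℝ, 0 < c' ∧ ∀ K, c' ≤ th d s b' 0 K := by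
  have hq : Ok (qq (d := d) s b) := qq_ok s0.le s1 b0.le b1
  set N := Fintype.card (Fin d × (Fin d → Bool)) with hN
  have hN0 : 0 < N := Fintype.card_pos_iff.2 ⟨(i0, fun _ => true)⟩
  have hN1 : (0 : ℝ) < N := by exact_mod_cast hN0
  set δ := min (1 / 288) (c / N / 20) with hδ
  have hδ0 : 0 < δ := lt_min (by norm_num) (by positivity)
  have hδ1 : δ ≤ 1 / 288 := min_le_left _ _
  have hδ2 : δ ≤ c / N / 20 := min_le_right _ _
  set ε := δ ^ 2 / (16 * (8 + d)) with hε
  have hε0 : 0 < ε := by positivity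
  set δ' := ε ^ 2 / (1 / ε + 2) with hδ'
  have hδ'0 : 0 < δ' := by positivity
  obtain ⟨k0, hm⟩ := exists_m hq hc h (ρ := (δ' / 2) ^ N) (by positivity)
  obtain ⟨m, p, m0, p0, p1, hp⟩ : ∃ (m : ℕ) (p : ℝ), k0 < m ∧ 0 ≤ p ∧ p < 1 ∧
      ((m % 2 = 1 ∧ b ≤ p) ∨ (m % 2 = 0 ∧ s ≤ p)) := by
    rcases hsb with e | e
    · exact ⟨2 * k0 + 1, b, by omega, b0.le, e, Or.inl ⟨by omega, le_rfl⟩⟩
    · exact ⟨2 * k0 + 2, s, by omega, s0.le, e, Or.inr ⟨by omega, le_rfl⟩⟩
  obtain ⟨k, k1, k2⟩ := exists_k (x := ∏ x ∈ src (0 : Fin d → ℤ) m, qq s b x)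
    (prod_pos fun x hx => by
      have := (mem_src.1 hx).2
      have := oc_nonneg x
      unfold qq
      split_ifs
      · exact s0
      · exact b0
      · omega)
    (prod_le_one (fun x _ => (hq x).1) (fun x _ => (hq x).2)) hε0
  have hpos : 0 < ε * (1 - p) ^ ((4 * m + 1) ^ d * k) := mul_pos hε0 (pow_pos (by linarith) _)
  obtain ⟨J, hJ⟩ := exists_nat_ge (1 / (ε * (1 - p) ^ ((4 * m + 1) ^ d * k)))
  rw [div_le_iff₀ hpos] at hJ
  set l := 2 * ((9 + d) * (m + J) + 1) with hl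
  have f1 : fail s b m l 0 i0 (fun _ => true) < δ' := by
    have := (sqrt_trick hq m l i0).trans (hm m l m0 (by rw [hl]; nlinarith))
    have := le_of_pow_le_pow_left₀ hN0.ne' (by positivity) this
    linarith
  have f2 : fail s b 0 l 0 i0 (fun _ => true) < 1 - c / N / 2 := by
    have := (h l).trans (union_trick hq 0 l i0)
    rw [← hN, ← div_le_iff₀' hN1] at this
    have : 0 < c / N := by positivity
    linarith
  have cf : ∀ m, Tendsto (fun t => fail s t m l 0 i0 (fun _ => true)) (𝓝[<] b)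
      (𝓝 (fail s b m l 0 i0 (fun _ => true))) := fun m =>
    ((Ex_continuous _ (fun t => qq s t) (qq_cont s) _).tendsto b).mono_left nhdsWithin_le_nhds
  have cx : Continuous fun t : ℝ => ∏ x ∈ src (0 : Fin d → ℤ) m, qq s t x :=
    continuous_finsetProd _ fun x _ => qq_cont s x
  have c1 : Tendsto (fun t : ℝ => (1 - ∏ x ∈ src (0 : Fin d → ℤ) m, qq s t x) ^ k) (𝓝[<] b)
      (𝓝 ((1 - ∏ x ∈ src (0 : Fin d → ℤ) m, qq s b x) ^ k)) :=
    (((continuous_const.sub cx).pow k).tendsto b).mono_left nhdsWithin_le_nhds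
  have c2 : Tendsto (fun t : ℝ => (k : ℝ) * ∏ x ∈ src (0 : Fin d → ℤ) m, qq s t x) (𝓝[<] b)
      (𝓝 ((k : ℝ) * ∏ x ∈ src (0 : Fin d → ℤ) m, qq s b x)) :=
    ((continuous_const.mul cx).tendsto b).mono_left nhdsWithin_le_nhds
  have ev : ∀ᶠ t : ℝ in 𝓝[<] b, t ∈ Set.Ioo (0 : ℝ) b := Ioo_mem_nhdsLT b0
  obtain ⟨t, ⟨⟨⟨t1, t2⟩, t3⟩, t5⟩, t4⟩ := ((((((cf m).eventually (gt_mem_nhds f1)).and
    ((cf 0).eventually (gt_mem_nhds f2))).and (c1.eventually (gt_mem_nhds k1))).and
    (c2.eventually (gt_mem_nhds (show _ < 1 / ε + 2 by linarith)))).and ev).exists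
  have M := move_of (δ := ε) (δ' := δ') p0 p1 hε0 m l J k i0 (by omega)
    (hp.imp (fun e => ⟨e.1, t4.2.le.trans e.2⟩) id) t1.le t3.le
    (by
      refine (mul_le_mul_of_nonneg_right t5.le hδ'0.le).trans (le_of_eq ?_)
      rw [hδ']; field_simp)
    (by linarith)
  refine ⟨t, t4.1.le, t4.2, c / N / 4, by positivity, fun K => le_trans ?_
    (perc_of_move (qq_ok s0.le s1 t4.1.le (t4.2.le.trans b1)) M (by rw [hl]; nlinarith)
      (by omega) (by omega) hδ0 (by linarith)
      (le_of_eq (by rw [hε]; field_simp; ring)) h01 K)⟩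
  linarith

end Pool.Agent.H913Z.Mix
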