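import Pool.Agent.H913Z.Perc.Link
import Pool.Agent.H913Z.Mix.Geo3

/-! From finite sums to the infinite product measure, mixed model. -/

namespace Pool.Agent.H913Z.Mix
open Finset MeasureTheory ProbabilityTheory unitInterval
open Pool.Agent.H913Z.Perc hiding hit Move clamp fail fail_symm corridor move_of th reach_sph
  th_of_sys perc_of_move perc_near_one th_nonneg exists_m perc_below th_mul sqrt_trick union_trick
  inf_le_th le_inf_of_th th_mono th_zero_le critical

theorem cyl_pi {V : Type*} [DecidableEq V] (p : V → I) (W s : Finset V) :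
    (Measure.infinitePi fun v => bernoulliMeasure true false (p v)).real
      {ξ : V → Bool | ∀ i ∈ W, (ξ i = true ↔ i ∈ s)} = wt W (fun v => (p v : ℝ)) s := by
  rw [measureReal_def]
  have e : {ξ : V → Bool | ∀ i ∈ W, (ξ i = true ↔ i ∈ s)} =
      Set.pi ↑W (fun i => {decide (i ∈ s)}) := by
    ext ξ
    simp only [Set.mem_ofPred_eq, Set.mem_pi, mem_coe, Set.mem_singleton_iff]
    refine forall₂_congr fun i _ => ?_
    by_cases h : i ∈ s <;> simp [h]
  rw [e, Measure.infinitePi_pi _ (fun _ _ => MeasurableSet.of_discrete), ENNReal.toReal_prod]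
  unfold wt
  refine prod_congr rfl fun i _ => ?_
  by_cases h : i ∈ s
  · simp [h, bernoulliMeasure]
  · simp [h, bernoulliMeasure]

theorem local_pi {V : Type*} [DecidableEq V] (p : V → I) (W : Finset V) (P : Set V → Prop) :
    (Measure.infinitePi fun v => bernoulliMeasure true false (p v)).real
      {ξ : V → Bool | P ({i | ξ i = true} ∩ ↑W)} =
      Ex W (fun v => (p v : ℝ)) (fun ω => ind (P ω)) := by
  classical
  have e : {ξ : V → Bool | P ({i | ξ i = true} ∩ ↑W)} =
      ⋃ s ∈ W.powerset.filter (fun s : Finset V => P ↑s),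
        {ξ : V → Bool | ∀ i ∈ W, (ξ i = true ↔ i ∈ s)} := by
    ext ξ
    simp only [Set.mem_ofPred_eq, Set.mem_iUnion, mem_filter, mem_powerset]
    constructor
    · intro h
      refine ⟨W.filter (fun i => ξ i = true), ⟨filter_subset _ _, ?_⟩, fun i hi => by simp [hi]⟩
      convert h using 1
      ext v; simp [and_comm]
    · rintro ⟨s, ⟨hs, h⟩, h'⟩
      convert h using 1
      ext v
      exact ⟨fun e => (h' v e.2).1 e.1, fun e => ⟨(h' v (hs e)).2 e, hs e⟩⟩
  rw [e, measureReal_biUnion_finset]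
  · simp only [cyl_pi]
    unfold Ex
    rw [sum_filter]
    refine sum_congr rfl fun s _ => ?_
    split_ifs with h
    · simp only [ind_pos h, mul_one]
    · simp only [ind_neg h, mul_zero]
  · intro s hs t ht hne
    rw [Function.onFun, Set.disjoint_left]
    intro ω h1 h2
    apply hne
    have hs' := mem_powerset.1 (mem_filter.1 hs).1
    have ht' := mem_powerset.1 (mem_filter.1 ht).1
    ext v
    exact ⟨fun e => (h2 v (hs' e)).1 ((h1 v (hs' e)).2 e),
      fun e => (h1 v (ht' e)).1 ((h2 v (ht' e)).2 e)⟩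
  · intro s _
    have : {ξ : V → Bool | ∀ i ∈ W, (ξ i = true ↔ i ∈ s)} =
        ⋂ i ∈ W, (fun ξ : V → Bool => ξ i) ⁻¹' {t | t = true ↔ i ∈ s} := by
      ext ω; simp
    rw [this]
    exact W.measurableSet_biInter fun i _ => measurable_pi_apply i MeasurableSet.of_discrete

variable {d : ℕ}

/-- sites and bonds -/
abbrev Cell (d : ℕ) : Type := (Fin d → ℤ) ⊕ ((Fin d → ℤ) × Fin d)

/-- position in the doubled lattice -/
def pos : Cell d → Fin d → ℤ
  | .inl x => fun j => 2 * x j
  | .inr (x, i) => fun j => if j = i then 2 * x j + 1 else 2 * x j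

theorem pos_inj : Function.Injective (pos (d := d)) := by
  rintro (x | ⟨x, i⟩) (y | ⟨y, k⟩) h
  · congr 1; ext j; have := congrFun h j; simp only [pos] at this; omega
  · have := congrFun h k; simp only [pos, if_true] at this; omega
  · have := congrFun h i; simp only [pos, if_true] at this; omega
  · have hik : i = k := by
      by_contra hne
      have := congrFun h i
      simp only [pos, if_true, hne, if_false] at this
      omega
    subst hik
    congr 2
    ext j
    have := congrFun h j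
    simp only [pos] at this
    split_ifs at this <;> omega

theorem oc_inl (x : Fin d → ℤ) : oc (pos (.inl x)) = 0 :=
  oc_zero fun j => by simp only [pos]; omega

theorem oc_inr (x : Fin d → ℤ) (i : Fin d) : oc (pos (.inr (x, i))) = 1 := by
  have h := oc_step (x := pos (.inr (x, i))) (y := pos (.inl x)) i
    fun j hj => by simp [pos, hj]
  rw [oc_inl] at h
  simp only [pos, if_true] at h ⊢
  omega

theorem exists_pos {v : Fin d → ℤ} (h : oc v ≤ 1) : ∃ c, pos c = v := by
  by_cases h0 : ∃ i, v i % 2 = 1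
  · obtain ⟨i, hi⟩ := h0
    refine ⟨.inr (fun j => v j / 2, i), funext fun j => ?_⟩
    simp only [pos]
    split_ifs with hj
    · subst hj; omega
    · have := oc_two h hj hi; omega
  · push Not at h0
    refine ⟨.inl fun j => v j / 2, funext fun j => ?_⟩
    have := h0 j
    simp only [pos]
    omega

/-- the product measure of the mixed model -/
noncomputable def mu (d : ℕ) (s b : I) : Measure (Cell d → Bool) :=
  Measure.infinitePi fun c => bernoulliMeasure true false (Sum.elim (fun _ => s) (fun _ => b) c)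

instance (s b : I) : IsProbabilityMeasure (mu d s b) := by unfold mu; infer_instance

/-- the configuration drawn in the doubled lattice -/
def draw (ξ : Cell d → Bool) : Set (Fin d → ℤ) := pos '' {c | ξ c = true}

theorem local_mu (s b : I) (W : Finset (Fin d → ℤ)) (P : Set (Fin d → ℤ) → Prop) :
    (mu d s b).real {ξ | P (draw ξ ∩ ↑W)} = Ex W (qq s b) (fun ω => ind (P ω)) := by
  have h := local_pi (Sum.elim (fun _ => s) (fun _ => b) : Cell d → I)
    (W.preimage pos pos_inj.injOn) (fun ω => P (pos '' ω))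
  have e1 : ∀ ξ : Cell d → Bool, pos '' ({c | ξ c = true} ∩ ↑(W.preimage pos pos_inj.injOn)) =
      draw ξ ∩ ↑W := by
    intro ξ
    rw [coe_preimage, Set.image_inter_preimage]
    rfl
  simp only [e1] at h
  unfold mu
  rw [h, Ex_drop (W := (W.preimage pos pos_inj.injOn).image pos), Ex_image pos pos_inj]
  · refine Ex_congr_q (fun c _ => ?_) _
    rcases c with x | ⟨x, i⟩
    · simp [qq, oc_inl]
    · simp [qq, oc_inr]
  · intro v hv
    obtain ⟨c, hc, rfl⟩ := mem_image.1 hv
    exact mem_preimage.1 hc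
  · intro v hv hn
    have : ¬ oc v ≤ 1 := fun e => by
      obtain ⟨c, rfl⟩ := exists_pos e
      exact hn (mem_image_of_mem _ (mem_preimage.2 hv))
    unfold qq
    rw [if_neg (by omega), if_neg (by omega)]

theorem inf_le_th (s b : I) {v : Fin d → ℤ} (hv : ∀ i, v i % 2 = 0) (i0 : Fin d) (k : ℕ) :
    (mu d s b).real {ξ | (O (gd d) {v} (draw ξ)).Infinite} ≤ th d s b 0 k := by
  set e := symE v i0 i0 (fun _ => true) with he
  have hS : ∀ a, e a ∈ ({v} : Set (Fin d → ℤ)) ↔ a ∈ ({0} : Set (Fin d → ℤ)) := fun a => by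
    rw [← cube_zero, ← cube_zero]; exact symE_cube v i0 i0 _ a 0
  have hO := O_equiv e (symE_gadj hv i0 i0 _) hS
  have h := local_mu s b (cube v k) (fun ρ => ∃ t ∈ sph d k, e t ∈ O (gd d) {v} ρ)
  have h2 : Ex (cube v k) (qq s b)
      (fun ρ => ind (∃ t ∈ sph d k, e t ∈ O (gd d) {v} ρ)) = th d s b 0 k := by
    unfold th
    rw [cube_image v i0 i0 (fun _ => true), Ex_image _ e.injective, symE_qq hv, src_zero]
    simp only [hO]
  rw [← h2, ← h]
  refine measureReal_mono fun ξ hω => ?_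
  obtain ⟨y, hy, hy'⟩ := Set.Infinite.exists_notMem_finset hω (cube v k)
  obtain ⟨x, rfl⟩ := e.surjective y
  obtain ⟨ω', hω'⟩ := e.surjective.image_surjective (draw ξ)
  simp only [Set.mem_ofPred_eq]
  rw [← hω'] at hy ⊢
  rw [hO] at hy
  rw [symE_cube, mem_cube, not_forall] at hy'
  obtain ⟨i, hi⟩ := hy'
  simp only [Pi.zero_apply] at hi
  obtain ⟨s, hs, hs'⟩ := reach_sph (k := k) hy ⟨i, by omega⟩
  refine ⟨s, hs, O_mono ?_ le_rfl ((hO _ _).2 hs')⟩
  rintro _ ⟨a, ha, rfl⟩
  exact ⟨⟨a, ha.1, rfl⟩, (symE_cube v i0 i0 _ a k).2 ha.2⟩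

theorem le_inf_of_th (s b : I) {c : ℝ} (h : ∀ k, c ≤ th d s b 0 k) :
    c ≤ (mu d s b).real {ξ | (O (gd d) {(0 : Fin d → ℤ)} (draw ξ)).Infinite} := by
  set μ := mu d s b
  let A : ℕ → Set (Cell d → Bool) := fun k =>
    {ξ | ¬ ∃ t ∈ sph d k, t ∈ O (gd d) {0} (draw ξ ∩ ↑(cube (0 : Fin d → ℤ) k))}
  have hA : ∀ k, μ.real (A k) = 1 - th d s b 0 k := by
    intro k
    have := local_mu s b (cube (0 : Fin d → ℤ) k)
      (fun ρ => ¬ ∃ t ∈ sph d k, t ∈ O (gd d) {0} ρ)
    simp only [ind_not, Ex_sub, Ex_const] at this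
    unfold th
    rw [src_zero]
    exact this
  have hm : Monotone A := by
    intro a b hab ω hω
    rintro ⟨t, ht, ht'⟩
    obtain ⟨i, hi⟩ := ht.2
    exact hω (reach_sph (O_mono Set.inter_subset_left le_rfl ht') ⟨i, by omega⟩)
  have hU : μ (⋃ k, A k) ≤ ENNReal.ofReal (1 - c) := by
    rw [hm.measure_iUnion]
    refine iSup_le fun k => ?_
    rw [← ENNReal.ofReal_toReal (measure_ne_top μ (A k))]
    refine ENNReal.ofReal_le_ofReal ?_
    rw [← measureReal_def, hA]
    linarith [h k]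
  have hc : 0 ≤ 1 - c := by
    have := h 0
    have : 0 ≤ μ.real (A 0) := measureReal_nonneg
    rw [hA] at this
    linarith
  have hU' : μ.real (⋃ k, A k) ≤ 1 - c := ENNReal.toReal_le_of_le_ofReal hc hU
  have hcov : (Set.univ : Set (Cell d → Bool)) ⊆
      {ξ | (O (gd d) {(0 : Fin d → ℤ)} (draw ξ)).Infinite} ∪ ⋃ k, A k := by
    intro ω _
    by_cases hf : (O (gd d) {(0 : Fin d → ℤ)} (draw ω)).Infinite
    · exact Or.inl hf
    · right
      obtain ⟨M, hM⟩ := ((Set.not_infinite.1 hf).image fun x => ∑ i, (x i).natAbs).bddAbove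
      refine Set.mem_iUnion.2 ⟨M + 1, ?_⟩
      rintro ⟨t, ht, ht'⟩
      obtain ⟨i, hi⟩ := ht.2
      have h1 := hM ⟨t, O_mono Set.inter_subset_left le_rfl ht', rfl⟩
      have h2 := single_le_sum (f := fun i => (t i).natAbs) (s := univ) (fun _ _ => Nat.zero_le _)
        (mem_univ i)
      simp only at h1
      omega
  have h1 := (measureReal_mono (μ := μ) hcov).trans (measureReal_union_le _ _)
  rw [probReal_univ] at h1
  linarith

theorem th_mono {s b b' : ℝ} (s0 : 0 ≤ s) (s1 : s ≤ 1) (h0 : 0 ≤ b) (h : b ≤ b') (h1 : b' ≤ 1)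
    (m l : ℕ) : th d s b m l ≤ th d s b' m l :=
  Ex_mono_q _ (qq_ok s0 s1 h0 (h.trans h1)) (qq_ok s0 s1 (h0.trans h) h1)
    (fun v => by unfold qq; split_ifs <;> linarith)
    fun _ _ hab => ind_mono fun ⟨t, ht, ht'⟩ => ⟨t, ht, O_mono hab le_rfl ht'⟩

theorem th_zero_le {s b : ℝ} (hq : Ok (qq (d := d) s b)) : th d s b 0 0 ≤ s := by
  have h := Ex_mem (U := cube (0 : Fin d → ℤ) 0) (qq s b) (v := 0) (mem_cube.2 fun i => by simp)
  have e1 : qq s b (0 : Fin d → ℤ) = s := if_pos (oc_zero fun _ => rfl)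
  rw [e1] at h
  refine le_trans ?_ h.le
  unfold th
  refine Ex_mono _ hq fun ω => ind_mono ?_
  rintro ⟨t, ht, ht'⟩
  have : t ∈ ({0} : Set (Fin d → ℤ)) := cube_zero (0 : Fin d → ℤ) ▸ ht.1
  exact this ▸ ht'.1

theorem th_one_zero (s : ℝ) : th d s 0 0 1 = 0 := by
  unfold th
  rw [Ex_drop (W := (cube (0 : Fin d → ℤ) 1).filter fun v => oc v = 0) (filter_subset _ _)]
  · refine (Ex_congr _ fun ω hω => ind_neg ?_).trans (Ex_const _ _ 0)
    rintro ⟨t, ⟨-, i, hi⟩, ht'⟩
    have h1 := (mem_filter.1 (hω ht'.1)).2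
    have h2 := oc_ge t i
    omega
  · intro v hv hn
    have : ¬ oc v = 0 := fun e => hn (mem_filter.2 ⟨hv, e⟩)
    simp [qq, this]

theorem critical (hd : 2 ≤ d) (s : I) {v : Fin d → ℤ} (hv : ∀ i, v i % 2 = 0) :
    mu d s (sSup {b : I | mu d s b {ξ | (O (gd d) {(0 : Fin d → ℤ)} (draw ξ)).Infinite} = 0})
      {ξ | (O (gd d) {v} (draw ξ)).Infinite} = 0 := by
  set bc := sSup {b : I | mu d s b {ξ | (O (gd d) {(0 : Fin d → ℤ)} (draw ξ)).Infinite} = 0}
    with hbc
  by_contra hne
  let i0 : Fin d := ⟨0, by omega⟩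
  let i1 : Fin d := ⟨1, by omega⟩
  have h01 : i1 ≠ i0 := fun e => by simpa [i0, i1] using congrArg Fin.val e
  have hc : 0 < (mu d s bc).real {ξ | (O (gd d) {v} (draw ξ)).Infinite} :=
    ENNReal.toReal_pos hne (measure_ne_top _ _)
  have hk := inf_le_th s bc hv i0
  have s0 : (0 : ℝ) < s :=
    hc.trans_le ((hk 0).trans (th_zero_le (qq_ok s.2.1 s.2.2 bc.2.1 bc.2.2)))
  have h0 : (0 : ℝ) < bc := by
    refine bc.2.1.lt_of_ne fun e => ?_
    have := hk 1
    rw [← e, th_one_zero] at this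
    linarith
  obtain ⟨p', a0, a1, c', b0, b1⟩ : ∃ p' : ℝ, 0 ≤ p' ∧ p' < bc ∧ ∃ c' : ℝ, 0 < c' ∧
      ∀ K, c' ≤ th d s p' 0 K := by
    by_cases e : (bc : ℝ) < 1 ∨ (s : ℝ) < 1
    · exact perc_below s0 s.2.2 h0 bc.2.2 e hc hk h01
    · rw [not_or, not_lt, not_lt] at e
      rw [le_antisymm bc.2.2 e.1, le_antisymm s.2.2 e.2]
      exact perc_near_one h01
  have : bc ≤ ⟨p', a0, a1.le.trans bc.2.2⟩ := by
    refine sSup_le fun p hp => ?_
    by_contra hlt
    have hlt : p' ≤ (p : ℝ) := (not_le.1 hlt).le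
    have := le_inf_of_th (d := d) s p (c := c') fun k =>
      (b1 k).trans (th_mono s.2.1 s.2.2 a0 hlt p.2.2 0 k)
    rw [measureReal_def, hp] at this
    simp at this
    linarith
  exact absurd (show (bc : ℝ) ≤ p' from this) (not_le.2 a1)

end Pool.Agent.H913Z.Mix
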